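import Pool.Agent.Helper18.IC.BDec
import Pool.Agent.Helper18.IC.Lin

/-!
# Programs for tree evaluation which inspect few cells: the ranks of a fixed shape
-/

namespace Pool.Agent.Helper18.IT

open Pool.Agent.Helper5.TreeExp Pool.Agent.Helper6.IC Pool.Agent.Helper18.IC

variable {d k : ℕ}

/-! ## One line of one table -/

theorem fix_bound2 {V : Type} [Finite V] (S : Finset (Fin k)) {g : Fin k → V} (hg : Function.Injective g) {x : V}
    (hx : ∀ t ∈ S, g t ≠ x) :
    Nat.card {J : V → Fin k // ∀ t ∈ S, J (g t) = J x} * k ^ S.card ≤ Nat.card (V → Fin k) := by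
  classical
  have h1 : k ^ S.card = Nat.card (S → Fin k) := by simp
  rw [h1, ← Nat.card_prod]
  have hgS : Function.Injective (fun t : S => g t.1) := fun a b hab => Subtype.ext (hg hab)
  have hxS : ¬ ∃ t : S, g t.1 = x := by
    rintro ⟨t, ht⟩
    exact hx t.1 t.2 ht
  refine Nat.card_le_card_of_injective (fun y : {J : V → Fin k // ∀ t ∈ S, J (g t) = J x} × (S → Fin k) =>
    Function.extend (fun t : S => g t.1) y.2 y.1.1) ?_
  rintro ⟨⟨J, hJ⟩, a⟩ ⟨⟨J', hJ'⟩, a'⟩ he
  simp only at he
  have ha : a = a' := by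
    funext t
    have h2 := congrFun he (g t.1)
    have h3 := hgS.extend_apply a J t
    have h4 := hgS.extend_apply a' J' t
    rw [h3, h4] at h2
    exact h2
  have hxx : J x = J' x := by
    have h2 := congrFun he x
    rw [Function.extend_apply' _ _ _ hxS, Function.extend_apply' _ _ _ hxS] at h2
    exact h2
  have hJJ : J = J' := by
    funext v
    by_cases hv : ∃ t : S, g t.1 = v
    · obtain ⟨t, rfl⟩ := hv
      rw [hJ t.1 t.2, hJ' t.1 t.2, hxx]
    · have h2 := congrFun he v
      rw [Function.extend_apply' _ _ _ hv, Function.extend_apply' _ _ _ hv] at h2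
      exact h2
  subst ha
  subst hJJ
  rfl

theorem line_bound2 {V : Type} [Finite V] (hk : 1 ≤ k) (r : ℕ) {g : Fin k → V} (hg : Function.Injective g) {x : V}
    (t0 : Fin k) (hx : ∀ t, t < t0 → g t ≠ x) :
    Nat.card {J : V → Fin k // r ≤ {t : Fin k | t < t0 ∧ J (g t) = J x}.ncard} * r.factorial ≤
      Nat.card (V → Fin k) := by
  classical
  have hcov := cover (fun (S : {S : Finset (Fin k) // S.card = r}) (J : V → Fin k) =>
      (∀ t ∈ S.1, t < t0) ∧ ∀ t ∈ S.1, J (g t) = J x)
    (fun J => r ≤ {t : Fin k | t < t0 ∧ J (g t) = J x}.ncard) (by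
    intro J hJ
    have h1 : r ≤ (Set.toFinite {t : Fin k | t < t0 ∧ J (g t) = J x}).toFinset.card := by
      rw [← Set.ncard_eq_toFinset_card]
      exact hJ
    obtain ⟨S, hS, hSc⟩ := Finset.exists_subset_card_eq h1
    refine ⟨⟨S, hSc⟩, fun t ht => ?_, fun t ht => ?_⟩
    · have h2 := hS ht
      rw [Set.Finite.mem_toFinset] at h2
      exact h2.1
    · have h2 := hS ht
      rw [Set.Finite.mem_toFinset] at h2
      exact h2.2)
  have hkr : 0 < k ^ r := Nat.pow_pos (by omega)
  have h2 : Nat.card {J : V → Fin k // r ≤ {t : Fin k | t < t0 ∧ J (g t) = J x}.ncard} * k ^ r ≤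
      k.choose r * Nat.card (V → Fin k) := by
    calc _ ≤ (∑ S : {S : Finset (Fin k) // S.card = r},
            Nat.card {J : V → Fin k // (∀ t ∈ S.1, t < t0) ∧ ∀ t ∈ S.1, J (g t) = J x}) * k ^ r :=
          Nat.mul_le_mul_right _ hcov
      _ = ∑ S : {S : Finset (Fin k) // S.card = r},
            Nat.card {J : V → Fin k // (∀ t ∈ S.1, t < t0) ∧ ∀ t ∈ S.1, J (g t) = J x} * k ^ r :=
          Finset.sum_mul _ _ _
      _ ≤ ∑ _S : {S : Finset (Fin k) // S.card = r}, Nat.card (V → Fin k) := by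
          refine Finset.sum_le_sum fun S _ => ?_
          by_cases hS : ∀ t ∈ S.1, t < t0
          · have h3 := fix_bound2 (V := V) S.1 hg (x := x) (fun t ht => hx t (hS t ht))
            rw [S.2] at h3
            refine le_trans (Nat.mul_le_mul_right _ ?_) h3
            refine Nat.card_le_card_of_injective (fun J => (⟨J.1, J.2.2⟩ :
              {J : V → Fin k // ∀ t ∈ S.1, J (g t) = J x})) ?_
            intro J J' h
            exact Subtype.ext (congrArg (fun z => z.1) h)
          · have h4 : Nat.card {J : V → Fin k // (∀ t ∈ S.1, t < t0) ∧ ∀ t ∈ S.1, J (g t) = J x} = 0 := by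
              rw [Nat.card_eq_zero]
              left
              exact ⟨fun x => hS x.2.1⟩
            rw [h4, zero_mul]
            exact Nat.zero_le _
      _ = k.choose r * Nat.card (V → Fin k) := by
          rw [Finset.sum_const, Finset.card_univ, Fintype.card_finset_len, Fintype.card_fin, smul_eq_mul]
  have h3 : k.choose r * r.factorial ≤ k ^ r := by
    rw [Nat.mul_comm, ← Nat.descFactorial_eq_factorial_mul_choose]
    exact Nat.descFactorial_le_pow k r
  refine Nat.le_of_mul_le_mul_right ?_ hkr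
  calc Nat.card {J : V → Fin k // r ≤ {t : Fin k | t < t0 ∧ J (g t) = J x}.ncard} * r.factorial * k ^ r
      = Nat.card {J : V → Fin k // r ≤ {t : Fin k | t < t0 ∧ J (g t) = J x}.ncard} * k ^ r * r.factorial := by ring
    _ ≤ k.choose r * Nat.card (V → Fin k) * r.factorial := Nat.mul_le_mul_right _ h2
    _ = k.choose r * r.factorial * Nat.card (V → Fin k) := by ring
    _ ≤ k ^ r * Nat.card (V → Fin k) := Nat.mul_le_mul_right _ h3
    _ = Nat.card (V → Fin k) * k ^ r := Nat.mul_comm _ _

/-! ## Vectors of ranks -/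

/-- A rank for each node of the set. -/
def RV (m : ℕ) : {n : ℕ} → BSel d n → Type
  | _, .empty => Unit
  | _, .self => Fin m
  | _, .node _ s => ∀ i c, RV m (s i c)

/-- An index for each indexed node. -/
def IV (T : ℕ) : {n : ℕ} → BSel d n → Type
  | _, .empty => Unit
  | _, .self => Unit
  | _, .node g s => Fin (if g then T else 1) × ∀ i c, IV T (s i c)

/-- The code with given indices and ranks. -/
def mkC {T m : ℕ} : {n : ℕ} → (s : BSel d n) → IV T s → RV m s → Code T m s
  | _, .empty, _, _ => ()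
  | _, .self, _, r => r
  | _, .node _ s, x, r => (x.1, fun i c => mkC (s i c) (x.2 i c) (r i c))

/-- The ranks of a code. -/
def rvC {T m : ℕ} : {n : ℕ} → (s : BSel d n) → Code T m s → RV m s
  | _, .empty, _ => ()
  | _, .self, a => a
  | _, .node _ s, a => fun i c => rvC (s i c) (a.2 i c)

/-- The indices of a code. -/
def ivC {T m : ℕ} : {n : ℕ} → (s : BSel d n) → Code T m s → IV T s
  | _, .empty, _ => ()
  | _, .self, _ => ()
  | _, .node _ s, a => (a.1, fun i c => ivC (s i c) (a.2 i c))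

theorem mkC_eq {T m : ℕ} : {n : ℕ} → (s : BSel d n) → (a : Code T m s) → mkC s (ivC s a) (rvC s a) = a
  | _, .empty, _ => rfl
  | _, .self, _ => rfl
  | _, .node _ s, a => by
    have h : ∀ i c, mkC (s i c) (ivC (s i c) (a.2 i c)) (rvC (s i c) (a.2 i c)) = a.2 i c :=
      fun i c => mkC_eq (s i c) (a.2 i c)
    refine Prod.ext rfl ?_
    funext i c
    exact h i c

noncomputable instance fintypeRV {m : ℕ} : {n : ℕ} → (s : BSel d n) → Fintype (RV m s)
  | _, .empty => inferInstanceAs (Fintype Unit)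
  | _, .self => inferInstanceAs (Fintype (Fin m))
  | _, .node _ s =>
    have : ∀ i c, Fintype (RV m (s i c)) := fun i c => fintypeRV (s i c)
    inferInstanceAs (Fintype (∀ i c, RV m (s i c)))

noncomputable instance fintypeIV {T : ℕ} : {n : ℕ} → (s : BSel d n) → Fintype (IV T s)
  | _, .empty => inferInstanceAs (Fintype Unit)
  | _, .self => inferInstanceAs (Fintype Unit)
  | _, .node g s =>
    have : ∀ i c, Fintype (IV T (s i c)) := fun i c => fintypeIV (s i c)
    inferInstanceAs (Fintype (Fin (if g then T else 1) × ∀ i c, IV T (s i c)))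

theorem card_IV {T : ℕ} : {n : ℕ} → (s : BSel d n) → Nat.card (IV T s) = T ^ s.groups
  | _, .empty => by
    show Nat.card Unit = T ^ 0
    simp
  | _, .self => by
    show Nat.card Unit = T ^ 0
    simp
  | _, .node g s => by
    show Nat.card (Fin (if g then T else 1) × ∀ i c, IV T (s i c)) =
      T ^ ((if g then 1 else 0) + ∑ i, ∑ c, (s i c).groups)
    rw [Nat.card_prod, Nat.card_pi, pow_add, ← Finset.prod_pow_eq_pow_sum]
    congr 1
    · cases g <;> simp
    · refine Finset.prod_congr rfl fun i _ => ?_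
      rw [Nat.card_pi, ← Finset.prod_pow_eq_pow_sum]
      exact Finset.prod_congr rfl fun c _ => card_IV (s i c)

/-- The product of the factorials of the ranks. -/
def tf {m : ℕ} : {n : ℕ} → (s : BSel d n) → RV m s → ℕ
  | _, .empty, _ => 1
  | _, .self, r => (r : Fin m).1.factorial
  | _, .node _ s, r => ∏ i, ∏ c, tf (s i c) (r i c)

/-- The same without the rank of the root. -/
def tf0 {m : ℕ} {n : ℕ} (s : BSel d n) (r : RV m s) : ℕ :=
  match n, s, r with
  | _, .empty, _ => 1
  | _, .self, _ => 1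
  | _, .node g s, r => tf (.node g s) r

/-- The factorial of the rank of the root. -/
def rf {m : ℕ} {n : ℕ} (s : BSel d n) (r : RV m s) : ℕ :=
  match n, s, r with
  | _, .empty, _ => 1
  | _, .self, r => (r : Fin m).1.factorial
  | _, .node _ _, _ => 1

theorem tf_eq {m : ℕ} {n : ℕ} (s : BSel d n) (r : RV m s) : tf s r = rf s r * tf0 s r := by
  cases s with
  | empty => rfl
  | self => exact (Nat.mul_one _).symm
  | node g s => exact (Nat.one_mul _).symm

theorem tf_pos {m : ℕ} : {n : ℕ} → (s : BSel d n) → (r : RV m s) → 0 < tf s r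
  | _, .empty, _ => Nat.one_pos
  | _, .self, _ => Nat.factorial_pos _
  | _, .node _ s, r => Finset.prod_pos fun i _ => Finset.prod_pos fun c _ => tf_pos (s i c) (r i c)

/-- The rank of the root of the set is `x`. -/
def RvAt {m : ℕ} {n : ℕ} (s : BSel d n) (r : RV m s) (x : ℕ) : Prop :=
  match n, s, r with
  | _, .self, r => (r : Fin m).1 = x
  | _, .empty, _ => True
  | _, .node _ _, _ => True

/-- The ranks are those of the instance. -/
def RankEv {m : ℕ} : {n : ℕ} → (s : BSel d n) → RV m s → (Var d k n → Fin k) → Prop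
  | _, .empty, _, _ => True
  | _, .self, _, _ => True
  | _ + 2, .node _ s, r, I =>
      ∀ i, (∀ c, RvAt (s i c) (r i c) (rank (fun x => subI I i (Sum.inl x)) (args (subI I i)) c (args I i)
          (args (subI I i) c))) ∧
      ∀ c, RankEv (s i c) (r i c) (sub2 I i c)

theorem rvAt_of_rankAt {T m n : ℕ} (s : BSel d n) (b : Code T m s) (x : ℕ) (h : RankAt m T s b x) :
    RvAt s (rvC s b) x := by
  cases s with
  | empty => trivial
  | self => exact h
  | node g s => trivial

theorem rankEv_of_codeOK {W : Type} {o : ℕ → W} {T m : ℕ} : {n : ℕ} → (s : BSel d n) → (e : Var d k n → W) →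
    (I : Var d k n → Fin k) → (a : Code T m s) → CodeOK o T m e s I a → RankEv s (rvC s a) I
  | _, .empty, _, _, _, _ => trivial
  | _, .self, _, _, _, _ => trivial
  | _ + 2, .node g s, e, I, a, h => by
    intro i
    exact ⟨fun c => rvAt_of_rankAt (s i c) (a.2 i c) _ (h.2.1 i c), fun c =>
      rankEv_of_codeOK (s i c) (e2 e i c) (sub2 I i c) (a.2 i c) (h.2.2 i c)⟩

/-! ## Counting -/

/-- An instance is a table and an instance for each child. -/
def lev {n : ℕ} : (Var d k (n + 1) → Fin k) ≃ ((Fin d → Fin k) → Fin k) × (Fin d → Var d k n → Fin k) where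
  toFun I := (fun x => I (Sum.inl x), fun c => subI I c)
  invFun p := fun u => match u with
    | Sum.inl x => p.1 x
    | Sum.inr (c, u) => p.2 c u
  left_inv I := by
    funext u
    rcases u with x | ⟨c, u⟩ <;> rfl
  right_inv p := rfl

theorem tab_bound {m n : ℕ} (hk : 1 ≤ k) (s : Fin d → BSel d n) (hs : ∀ c c', s c = .self → s c' = .self → c = c')
    (r : ∀ c, RV m (s c)) (x : Fin d → Fin k) :
    Nat.card {f : (Fin d → Fin k) → Fin k // ∀ c, RvAt (s c) (r c) (rank f x c (f x) (x c))} * ∏ c, rf (s c) (r c) ≤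
      Nat.card ((Fin d → Fin k) → Fin k) := by
  classical
  by_cases h : ∃ c, s c = .self
  · obtain ⟨c0, hc0⟩ := h
    have h1 : ∀ c, c ≠ c0 → rf (s c) (r c) = 1 := by
      intro c hc
      have h2 : s c ≠ .self := fun h => hc (hs c c0 h hc0)
      revert h2
      generalize r c = b
      revert b
      generalize s c = t
      intro b h2
      cases t with
      | empty => rfl
      | self => exact absurd rfl h2
      | node g s => rfl
    have h3 : ∏ c, rf (s c) (r c) = rf (s c0) (r c0) :=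
      Finset.prod_eq_single c0 (fun c _ hc => h1 c hc) (fun h => absurd (Finset.mem_univ _) h)
    rw [h3]
    -- the rank at `c0`
    have h4 : ∃ l : ℕ, rf (s c0) (r c0) = l.factorial ∧ ∀ y, RvAt (s c0) (r c0) y → l = y := by
      generalize r c0 = b
      revert b
      rw [hc0]
      intro b
      exact ⟨(b : Fin m).1, rfl, fun y hy => hy⟩
    obtain ⟨l, hl, hl'⟩ := h4
    rw [hl]
    refine le_trans (Nat.mul_le_mul_right _ ?_) (line_bound2 (V := Fin d → Fin k) hk l
      (g := fun t => Function.update x c0 t) (Function.update_injective x c0) (x := x) (x c0) ?_)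
    · refine Nat.card_le_card_of_injective (fun f => ⟨f.1, ?_⟩) ?_
      · have h5 := hl' _ (f.2 c0)
        rw [h5]
        exact le_rfl
      · intro f f' h
        exact Subtype.ext (congrArg (fun z => z.1) h)
    · intro t ht h
      have h6 := congrFun h c0
      rw [Function.update_self] at h6
      exact ne_of_lt ht h6
  · push Not at h
    have h1 : ∀ c, rf (s c) (r c) = 1 := by
      intro c
      have h2 := h c
      revert h2
      generalize r c = b
      revert b
      generalize s c = t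
      intro b h2
      cases t with
      | empty => rfl
      | self => exact absurd rfl h2
      | node g s => rfl
    rw [Finset.prod_eq_one fun c _ => h1 c, Nat.mul_one]
    exact Nat.card_le_card_of_injective (fun f => f.1) Subtype.val_injective

/-- The part of an instance below one child. -/
theorem child_bound {m n : ℕ} (hk : 1 ≤ k) (s : Fin d → BSel d n) (hs : ∀ c c', s c = .self → s c' = .self → c = c')
    (r : ∀ c, RV m (s c))
    (IH : ∀ c, Nat.card {I : Var d k n → Fin k // RankEv (s c) (r c) I} * tf0 (s c) (r c) ≤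
      Nat.card (Var d k n → Fin k)) :
    Nat.card {J : Var d k (n + 1) → Fin k // (∀ c, RvAt (s c) (r c)
        (rank (fun x => J (Sum.inl x)) (args J) c (valI (n + 1) J) (args J c))) ∧ ∀ c, RankEv (s c) (r c) (subI J c)} *
      ∏ c, tf (s c) (r c) ≤ Nat.card (Var d k (n + 1) → Fin k) := by
  classical
  set X := Nat.card (Var d k n → Fin k) with hX
  set Y := Nat.card ((Fin d → Fin k) → Fin k) with hY
  -- as pairs
  have e1 : {J : Var d k (n + 1) → Fin k // (∀ c, RvAt (s c) (r c)
        (rank (fun x => J (Sum.inl x)) (args J) c (valI (n + 1) J) (args J c))) ∧ ∀ c, RankEv (s c) (r c) (subI J c)} ≃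
      Σ K : {K : Fin d → Var d k n → Fin k // ∀ c, RankEv (s c) (r c) (K c)},
        {f : (Fin d → Fin k) → Fin k // ∀ c, RvAt (s c) (r c)
          (rank f (fun c => valI n (K.1 c)) c (f (fun c => valI n (K.1 c))) (valI n (K.1 c)))} :=
    { toFun := fun J => ⟨⟨fun c => subI J.1 c, J.2.2⟩, ⟨fun x => J.1 (Sum.inl x), J.2.1⟩⟩
      invFun := fun p => ⟨lev.symm (p.2.1, p.1.1), ⟨p.2.2, p.1.2⟩⟩
      left_inv := fun J => Subtype.ext (lev.left_inv J.1)
      right_inv := fun p => rfl }
  have hfin : Finite {K : Fin d → Var d k n → Fin k // ∀ c, RankEv (s c) (r c) (K c)} := inferInstance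
  have hft : Fintype {K : Fin d → Var d k n → Fin k // ∀ c, RankEv (s c) (r c) (K c)} := Fintype.ofFinite _
  rw [Nat.card_congr e1, Nat.card_sigma, Finset.sum_mul]
  have h1 : ∀ K : {K : Fin d → Var d k n → Fin k // ∀ c, RankEv (s c) (r c) (K c)},
      Nat.card {f : (Fin d → Fin k) → Fin k // ∀ c, RvAt (s c) (r c)
          (rank f (fun c => valI n (K.1 c)) c (f (fun c => valI n (K.1 c))) (valI n (K.1 c)))} *
        ∏ c, tf (s c) (r c) ≤ Y * ∏ c, tf0 (s c) (r c) := by
    intro K
    have h2 := tab_bound hk s hs r (fun c => valI n (K.1 c))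
    have h3 : ∏ c, tf (s c) (r c) = (∏ c, rf (s c) (r c)) * ∏ c, tf0 (s c) (r c) := by
      rw [← Finset.prod_mul_distrib]
      exact Finset.prod_congr rfl fun c _ => tf_eq _ _
    rw [h3, ← Nat.mul_assoc]
    exact Nat.mul_le_mul_right _ h2
  refine (Finset.sum_le_sum fun K _ => h1 K).trans ?_
  rw [Finset.sum_const, Finset.card_univ, smul_eq_mul]
  have h4 : Fintype.card {K : Fin d → Var d k n → Fin k // ∀ c, RankEv (s c) (r c) (K c)} =
      ∏ c, Nat.card {I : Var d k n → Fin k // RankEv (s c) (r c) I} := by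
    rw [← Nat.card_pi, ← Nat.card_eq_fintype_card]
    exact Nat.card_congr (Equiv.subtypePiEquivPi)
  rw [h4]
  have h5 : (∏ c, Nat.card {I : Var d k n → Fin k // RankEv (s c) (r c) I}) * ∏ c, tf0 (s c) (r c) ≤ X ^ d := by
    rw [← Finset.prod_mul_distrib]
    refine (Finset.prod_le_prod' fun c _ => IH c).trans ?_
    rw [Finset.prod_const, Finset.card_univ, Fintype.card_fin]
  have h6 : Nat.card (Var d k (n + 1) → Fin k) = Y * X ^ d := by
    rw [Nat.card_congr (lev (d := d) (k := k) (n := n)), Nat.card_prod,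
      Nat.card_pi (β := fun _ : Fin d => Var d k n → Fin k), Finset.prod_const, Finset.card_univ, Fintype.card_fin]
  rw [h6]
  calc (∏ c, Nat.card {I : Var d k n → Fin k // RankEv (s c) (r c) I}) * (Y * ∏ c, tf0 (s c) (r c))
      = Y * ((∏ c, Nat.card {I : Var d k n → Fin k // RankEv (s c) (r c) I}) * ∏ c, tf0 (s c) (r c)) := by ring
    _ ≤ Y * X ^ d := Nat.mul_le_mul_left _ h5

/-- The probability of a vector of ranks. -/
theorem rank_prob {m : ℕ} (hk : 1 ≤ k) : {n : ℕ} → (s : BSel d n) → s.WF → (r : RV m s) →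
    Nat.card {I : Var d k n → Fin k // RankEv s r I} * tf0 s r ≤ Nat.card (Var d k n → Fin k)
  | _, .empty, _, _ => by
    show _ * 1 ≤ _
    rw [Nat.mul_one]
    exact Nat.card_le_card_of_injective (fun f => f.1) Subtype.val_injective
  | _, .self, _, _ => by
    show _ * 1 ≤ _
    rw [Nat.mul_one]
    exact Nat.card_le_card_of_injective (fun f => f.1) Subtype.val_injective
  | n + 2, .node g s, hw, r => by
    classical
    have h1 : ∀ i, Nat.card {J : Var d k (n + 1) → Fin k // (∀ c, RvAt (s i c) (r i c)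
        (rank (fun x => J (Sum.inl x)) (args J) c (valI (n + 1) J) (args J c))) ∧
          ∀ c, RankEv (s i c) (r i c) (subI J c)} *
        ∏ c, tf (s i c) (r i c) ≤ Nat.card (Var d k (n + 1) → Fin k) := fun i =>
      child_bound hk (s i) (hw.2.1 i) (r i) fun c => rank_prob hk (s i c) (hw.2.2 i c) (r i c)
    set X := Nat.card (Var d k (n + 1) → Fin k) with hX
    set Y := Nat.card ((Fin d → Fin k) → Fin k) with hY
    have h2 : Nat.card {I : Var d k (n + 2) → Fin k // RankEv (.node g s) r I} =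
        Y * ∏ i, Nat.card {J : Var d k (n + 1) → Fin k // (∀ c, RvAt (s i c) (r i c)
        (rank (fun x => J (Sum.inl x)) (args J) c (valI (n + 1) J) (args J c))) ∧
          ∀ c, RankEv (s i c) (r i c) (subI J c)} := by
      rw [← Nat.card_pi, hY, ← Nat.card_prod]
      exact Nat.card_congr
        { toFun := fun I => (fun x => I.1 (Sum.inl x), fun i => ⟨subI I.1 i, I.2 i⟩)
          invFun := fun p => ⟨lev.symm (p.1, fun i => (p.2 i).1), fun i => (p.2 i).2⟩
          left_inv := fun I => Subtype.ext (lev.left_inv I.1)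
          right_inv := fun p => rfl }
    have h3 : Nat.card (Var d k (n + 2) → Fin k) = Y * ∏ _i : Fin d, X := by
      rw [Nat.card_congr (lev (d := d) (k := k) (n := n + 1)), Nat.card_prod,
        Nat.card_pi (β := fun _ : Fin d => Var d k (n + 1) → Fin k)]
    rw [h2, h3]
    show _ * (∏ i, ∏ c, tf (s i c) (r i c)) ≤ _
    rw [Nat.mul_assoc, ← Finset.prod_mul_distrib]
    exact Nat.mul_le_mul_left _ (Finset.prod_le_prod' fun i _ => h1 i)

/-! ## The sum over the ranks -/

theorem fac_small (r : ℕ) : Real.sqrt (1 / ((r + 2).factorial : ℝ)) ≤ 3 / 4 * (3 / 5) ^ r := by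
  rw [Real.sqrt_le_left (by positivity)]
  induction r with
  | zero => norm_num [Nat.factorial]
  | succ r ih =>
    have h1 : ((r + 1 + 2).factorial : ℝ) = (r + 3 : ℝ) * ((r + 2).factorial : ℝ) := by
      rw [show r + 1 + 2 = (r + 2) + 1 by ring, Nat.factorial_succ]
      push_cast
      ring
    have h2 : (0 : ℝ) < ((r + 2).factorial : ℝ) := by exact_mod_cast Nat.factorial_pos _
    rw [h1, one_div, mul_inv, ← one_div, ← one_div]
    have h3 : (1 : ℝ) / (r + 3) ≤ 1 / 3 := one_div_le_one_div_of_le (by norm_num) (by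
      have : (0 : ℝ) ≤ r := Nat.cast_nonneg r
      linarith)
    have h4 : (0 : ℝ) ≤ 1 / ((r + 2).factorial : ℝ) := by positivity
    have h5 : (0 : ℝ) ≤ (3 / 4 * (3 / 5) ^ r) ^ 2 := sq_nonneg _
    calc (1 : ℝ) / (r + 3) * (1 / ((r + 2).factorial : ℝ)) ≤ 1 / 3 * (3 / 4 * (3 / 5) ^ r) ^ 2 :=
          mul_le_mul h3 ih h4 (by norm_num)
      _ ≤ 9 / 25 * (3 / 4 * (3 / 5) ^ r) ^ 2 := by nlinarith
      _ = (3 / 4 * (3 / 5) ^ (r + 1)) ^ 2 := by ring

theorem sum_fac (m : ℕ) : ∑ r : Fin m, Real.sqrt (1 / ((r : ℕ).factorial : ℝ)) ≤ 4 := by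
  rw [Fin.sum_univ_eq_sum_range (fun r => Real.sqrt (1 / (r.factorial : ℝ)))]
  rcases m with _ | _ | m
  · norm_num
  · norm_num [Finset.sum_range_succ, Nat.factorial]
  · have h : ∑ r ∈ Finset.range (m + 2), Real.sqrt (1 / (r.factorial : ℝ)) ≤ 4 - 15 / 8 * (3 / 5) ^ m := by
      induction m with
      | zero => norm_num [Finset.sum_range_succ, Nat.factorial]
      | succ m ih =>
        rw [show m + 1 + 2 = (m + 2) + 1 by ring, Finset.sum_range_succ]
        have h1 := fac_small m
        have h2 : (3 / 5 : ℝ) ^ (m + 1) = (3 / 5) ^ m * (3 / 5) := pow_succ _ _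
        rw [h2]
        nlinarith
    have h1 : (0 : ℝ) ≤ 15 / 8 * (3 / 5) ^ m := by positivity
    linarith

theorem sum_tf {m : ℕ} : {n : ℕ} → (s : BSel d n) → ∑ r : RV m s, Real.sqrt (1 / (tf s r : ℝ)) ≤ 4 ^ s.size
  | _, .empty => by
    show ∑ _r : Unit, Real.sqrt (1 / ((1 : ℕ) : ℝ)) ≤ 4 ^ 0
    simp
  | _, .self => by
    show ∑ r : Fin m, Real.sqrt (1 / ((r : ℕ).factorial : ℝ)) ≤ 4 ^ 1
    rw [pow_one]
    exact sum_fac m
  | _, .node g s => by
    show ∑ r : (∀ i c, RV m (s i c)), Real.sqrt (1 / ((∏ i, ∏ c, tf (s i c) (r i c) : ℕ) : ℝ)) ≤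
      4 ^ (∑ i, ∑ c, (s i c).size)
    have h1 : ∀ r : (∀ i c, RV m (s i c)), Real.sqrt (1 / ((∏ i, ∏ c, tf (s i c) (r i c) : ℕ) : ℝ)) =
        ∏ i, ∏ c, Real.sqrt (1 / (tf (s i c) (r i c) : ℝ)) := by
      intro r
      push_cast
      rw [one_div, ← Finset.prod_inv_distrib, Real.sqrt_prod _ (fun i _ => by positivity)]
      refine Finset.prod_congr rfl fun i _ => ?_
      rw [← Finset.prod_inv_distrib, Real.sqrt_prod _ (fun i _ => by positivity)]
      exact Finset.prod_congr rfl fun c _ => by rw [one_div]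
    have h2 : ∑ r : (∀ i c, RV m (s i c)), ∏ i, ∏ c, Real.sqrt (1 / (tf (s i c) (r i c) : ℝ)) =
        ∏ i, ∏ c, ∑ r : RV m (s i c), Real.sqrt (1 / (tf (s i c) r : ℝ)) := by
      have h3 : ∀ i, ∏ c, ∑ r : RV m (s i c), Real.sqrt (1 / (tf (s i c) r : ℝ)) =
          ∑ r : (∀ c, RV m (s i c)), ∏ c, Real.sqrt (1 / (tf (s i c) (r c) : ℝ)) := by
        intro i
        rw [Finset.prod_univ_sum, Fintype.piFinset_univ]
      rw [Finset.prod_congr rfl fun i _ => h3 i, Finset.prod_univ_sum, Fintype.piFinset_univ]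
    rw [Finset.sum_congr rfl fun r _ => h1 r, h2, ← Finset.prod_pow_eq_pow_sum]
    refine Finset.prod_le_prod (fun i _ => Finset.prod_nonneg fun c _ => Finset.sum_nonneg fun r _ =>
      Real.sqrt_nonneg _) fun i _ => ?_
    rw [← Finset.prod_pow_eq_pow_sum]
    exact Finset.prod_le_prod (fun c _ => Finset.sum_nonneg fun r _ => Real.sqrt_nonneg _) fun c _ =>
      sum_tf (s i c)

/-! ## The bound for a shape -/

theorem shape_bound {n N T : ℕ} (hk : 1 ≤ k) (B : BP (Var d k n) k N) (Q : Finset (Fin N)) (s : BSel d n)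
    (hs : s ≠ .self) (hw : s.WF) (hsz : s.size = d * s.groups) :
    (Nat.card {I : Var d k n → Fin k // ∃ q ∈ Q, ∃ a : Code T k s, BCond (obs B I q) Sum.inl s I ∧
        CodeOK (obs B I q) T k Sum.inl s I a} : ℝ) ≤
      Real.sqrt Q.card * (4 ^ d * Real.sqrt (T / (k : ℝ) ^ d)) ^ s.groups * Nat.card (Var d k n → Fin k) := by
  classical
  set X : ℝ := ((Nat.card (Var d k n → Fin k) : ℕ) : ℝ) with hX
  have hX0 : 0 ≤ X := Nat.cast_nonneg _
  have hk0 : (0 : ℝ) < k := by exact_mod_cast hk
  have htf : ∀ r : RV k s, tf s r = tf0 s r := by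
    intro r
    rw [tf_eq]
    cases s with
    | empty => rfl
    | self => exact absurd rfl hs
    | node g s => exact Nat.one_mul _
  -- the event for one vector of ranks
  let E : RV k s → (Var d k n → Fin k) → Prop := fun r I => RankEv s r I ∧ ∃ q : Q, ∃ x : IV T s,
    BCond (obs B I q.1) Sum.inl s I ∧ CodeOK (obs B I q.1) T k Sum.inl s I (mkC s x r)
  have hcov := cover E (fun I => ∃ q ∈ Q, ∃ a : Code T k s, BCond (obs B I q) Sum.inl s I ∧
      CodeOK (obs B I q) T k Sum.inl s I a) (by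
    rintro I ⟨q, hq, a, h1, h2⟩
    refine ⟨rvC s a, rankEv_of_codeOK s Sum.inl I a h2, ⟨q, hq⟩, ivC s a, h1, ?_⟩
    rw [mkC_eq]
    exact h2)
  have hA : ∀ r, (Nat.card {I // E r I} : ℝ) ≤ Q.card * (T : ℝ) ^ s.groups / (k : ℝ) ^ s.size * X := by
    intro r
    have h1 := cover (fun (w : Q × IV T s) (I : Var d k n → Fin k) => BCond (obs B I w.1.1) Sum.inl s I ∧
      CodeOK (obs B I w.1.1) T k Sum.inl s I (mkC s w.2 r)) (E r) (by
      rintro I ⟨-, q, x, h1, h2⟩
      exact ⟨(q, x), h1, h2⟩)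
    have h2 : Nat.card {I // E r I} * k ^ s.size ≤ Q.card * T ^ s.groups * Nat.card (Var d k n → Fin k) := by
      calc Nat.card {I // E r I} * k ^ s.size ≤ (∑ w : Q × IV T s, Nat.card {I : Var d k n → Fin k //
            BCond (obs B I w.1.1) Sum.inl s I ∧ CodeOK (obs B I w.1.1) T k Sum.inl s I (mkC s w.2 r)}) * k ^ s.size :=
            Nat.mul_le_mul_right _ h1
        _ = ∑ w : Q × IV T s, Nat.card {I : Var d k n → Fin k //
            BCond (obs B I w.1.1) Sum.inl s I ∧ CodeOK (obs B I w.1.1) T k Sum.inl s I (mkC s w.2 r)} * k ^ s.size :=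
            Finset.sum_mul _ _ _
        _ ≤ ∑ _w : Q × IV T s, Nat.card (Var d k n → Fin k) :=
            Finset.sum_le_sum fun w _ => B_bound B w.1.1 s hs hw (mkC s w.2 r)
        _ = Q.card * T ^ s.groups * Nat.card (Var d k n → Fin k) := by
            rw [Finset.sum_const, Finset.card_univ, smul_eq_mul, Fintype.card_prod, Fintype.card_coe,
              ← Nat.card_eq_fintype_card (α := IV T s), card_IV]
    rw [div_mul_eq_mul_div, le_div_iff₀ (by positivity), hX]
    exact_mod_cast h2
  have hB : ∀ r, (Nat.card {I // E r I} : ℝ) ≤ 1 / (tf s r : ℝ) * X := by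
    intro r
    have h1 := rank_prob hk s hw r
    rw [← htf r] at h1
    have h2 : Nat.card {I // E r I} ≤ Nat.card {I : Var d k n → Fin k // RankEv s r I} :=
      Nat.card_le_card_of_injective (fun I => ⟨I.1, I.2.1⟩) fun I I' h =>
        Subtype.ext (congrArg (fun z => z.1) h)
    have h3 : Nat.card {I // E r I} * tf s r ≤ Nat.card (Var d k n → Fin k) := (Nat.mul_le_mul_right _ h2).trans h1
    have h4 : (0 : ℝ) < (tf s r : ℝ) := by exact_mod_cast tf_pos s r
    rw [div_mul_eq_mul_div, one_mul, le_div_iff₀ h4, hX]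
    exact_mod_cast h3
  set D : ℝ := Q.card * (T : ℝ) ^ s.groups / (k : ℝ) ^ s.size with hD
  have hD0 : 0 ≤ D := by positivity
  have hE : ∀ r, (Nat.card {I // E r I} : ℝ) ≤ Real.sqrt D * Real.sqrt (1 / (tf s r : ℝ)) * X := by
    intro r
    have h1 := hA r
    have h2 := hB r
    have h3 : (0 : ℝ) ≤ (Nat.card {I // E r I} : ℝ) := Nat.cast_nonneg _
    have h4 : (0 : ℝ) ≤ 1 / (tf s r : ℝ) := by positivity
    have h5 : (Nat.card {I // E r I} : ℝ) ≤ Real.sqrt ((D * X) * (1 / (tf s r : ℝ) * X)) := by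
      apply Real.le_sqrt_of_sq_le
      rw [pow_two]
      exact mul_le_mul h1 h2 h3 (by positivity)
    refine h5.trans (le_of_eq ?_)
    rw [show (D * X) * (1 / (tf s r : ℝ) * X) = (D * (1 / (tf s r : ℝ))) * (X * X) by ring,
      Real.sqrt_mul (by positivity), Real.sqrt_mul_self hX0, Real.sqrt_mul hD0]
  have hsum : (∑ r : RV k s, (Nat.card {I // E r I} : ℝ)) ≤ Real.sqrt D * 4 ^ s.size * X := by
    calc ∑ r : RV k s, (Nat.card {I // E r I} : ℝ)
        ≤ ∑ r : RV k s, Real.sqrt D * Real.sqrt (1 / (tf s r : ℝ)) * X := Finset.sum_le_sum fun r _ => hE r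
      _ = Real.sqrt D * (∑ r : RV k s, Real.sqrt (1 / (tf s r : ℝ))) * X := by
          rw [← Finset.sum_mul, ← Finset.mul_sum]
      _ ≤ Real.sqrt D * 4 ^ s.size * X := by
          refine mul_le_mul_of_nonneg_right (mul_le_mul_of_nonneg_left (sum_tf s) (Real.sqrt_nonneg _)) hX0
  refine le_trans (by exact_mod_cast hcov) (hsum.trans (le_of_eq ?_))
  have h6 : Real.sqrt D = Real.sqrt Q.card * Real.sqrt (T / (k : ℝ) ^ d) ^ s.groups := by
    rw [hD, hsz, pow_mul, mul_div_assoc, ← div_pow, Real.sqrt_mul (Nat.cast_nonneg _)]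
    congr 1
    rw [Real.sqrt_eq_iff_mul_self_eq (by positivity) (by positivity), ← mul_pow, Real.mul_self_sqrt (by positivity)]
  rw [h6, hsz, pow_mul, mul_pow]
  ring

end Pool.Agent.Helper18.IT
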