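import Pool.Agent.Helper18.IT.Ranks

/-!
# Programs for tree evaluation which inspect few cells: a fixed shape, programs with many initial states
-/

namespace Pool.Agent.Helper18.IT

open Pool.Agent.Helper5.TreeExp Pool.Agent.Helper6.IC Pool.Agent.Helper18.IC

variable {d k : ℕ}

/-- The pairs (number of an initial state, instance) for which the shape occurs in a state whose index (for this
instance) is that number. -/
theorem shape_bound_c {n N T σ : ℕ} (hk : 1 ≤ k) (B : BP (Var d k n) k N)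
    (idx : (Var d k n → Fin k) → Fin N → Option (Fin σ)) (s : BSel d n)
    (hs : s ≠ .self) (hw : s.WF) (hsz : s.size = d * s.groups) :
    (Nat.card {P : Fin σ × (Var d k n → Fin k) // ∃ q, idx P.2 q = some P.1 ∧ ∃ a : Code T k s,
        BCond (obs B P.2 q) Sum.inl s P.2 ∧ CodeOK (obs B P.2 q) T k Sum.inl s P.2 a} : ℝ) ≤
      Real.sqrt (N * σ) * (4 ^ d * Real.sqrt (T / (k : ℝ) ^ d)) ^ s.groups * Nat.card (Var d k n → Fin k) := by
  classical
  set X : ℝ := ((Nat.card (Var d k n → Fin k) : ℕ) : ℝ) with hX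
  have hX0 : 0 ≤ X := Nat.cast_nonneg _
  have hk0 : (0 : ℝ) < k := by exact_mod_cast hk
  have htf : ∀ r : RV k s, tf s r = tf0 s r := by
    intro r
    rw [tf_eq]
    cases s with
    | empty => rfl
    | self => exact absurd rfl hs
    | node g s => exact Nat.one_mul _
  let E : RV k s → Fin σ × (Var d k n → Fin k) → Prop := fun r P => RankEv s r P.2 ∧ ∃ q, idx P.2 q = some P.1 ∧
    ∃ x : IV T s, BCond (obs B P.2 q) Sum.inl s P.2 ∧ CodeOK (obs B P.2 q) T k Sum.inl s P.2 (mkC s x r)
  have hcov := cover E (fun P => ∃ q, idx P.2 q = some P.1 ∧ ∃ a : Code T k s, BCond (obs B P.2 q) Sum.inl s P.2 ∧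
      CodeOK (obs B P.2 q) T k Sum.inl s P.2 a) (by
    rintro P ⟨q, hq, a, h1, h2⟩
    refine ⟨rvC s a, rankEv_of_codeOK s Sum.inl P.2 a h2, q, hq, ivC s a, h1, ?_⟩
    rw [mkC_eq]
    exact h2)
  have hA : ∀ r, (Nat.card {P // E r P} : ℝ) ≤ N * (T : ℝ) ^ s.groups / (k : ℝ) ^ s.size * X := by
    intro r
    have h1 : Nat.card {P // E r P} ≤ ∑ w : Fin N × IV T s, Nat.card {I : Var d k n → Fin k //
        BCond (obs B I w.1) Sum.inl s I ∧ CodeOK (obs B I w.1) T k Sum.inl s I (mkC s w.2 r)} := by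
      rw [← Nat.card_sigma]
      have hch : ∀ P : {P // E r P}, ∃ q, idx P.1.2 q = some P.1.1 ∧ ∃ x : IV T s,
          BCond (obs B P.1.2 q) Sum.inl s P.1.2 ∧ CodeOK (obs B P.1.2 q) T k Sum.inl s P.1.2 (mkC s x r) :=
        fun P => P.2.2
      choose q hq x hx using hch
      refine Nat.card_le_card_of_injective (fun P : {P // E r P} => (⟨(q P, x P), P.1.2, hx P⟩ :
        Σ w : Fin N × IV T s, {I : Var d k n → Fin k //
          BCond (obs B I w.1) Sum.inl s I ∧ CodeOK (obs B I w.1) T k Sum.inl s I (mkC s w.2 r)})) ?_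
      intro P P' h
      have h2 : q P = q P' := congrArg (fun z : Σ w : Fin N × IV T s, {I : Var d k n → Fin k //
          BCond (obs B I w.1) Sum.inl s I ∧ CodeOK (obs B I w.1) T k Sum.inl s I (mkC s w.2 r)} => z.1.1) h
      have h3 : P.1.2 = P'.1.2 := congrArg (fun z : Σ w : Fin N × IV T s, {I : Var d k n → Fin k //
          BCond (obs B I w.1) Sum.inl s I ∧ CodeOK (obs B I w.1) T k Sum.inl s I (mkC s w.2 r)} => z.2.1) h
      have h4 : P.1.1 = P'.1.1 := by
        have h5 := hq P
        rw [h2, h3, hq P'] at h5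
        exact (Option.some_injective _ h5).symm
      exact Subtype.ext (Prod.ext h4 h3)
    have h2 : Nat.card {P // E r P} * k ^ s.size ≤ N * T ^ s.groups * Nat.card (Var d k n → Fin k) := by
      calc Nat.card {P // E r P} * k ^ s.size ≤ (∑ w : Fin N × IV T s, Nat.card {I : Var d k n → Fin k //
            BCond (obs B I w.1) Sum.inl s I ∧ CodeOK (obs B I w.1) T k Sum.inl s I (mkC s w.2 r)}) * k ^ s.size :=
            Nat.mul_le_mul_right _ h1
        _ = ∑ w : Fin N × IV T s, Nat.card {I : Var d k n → Fin k //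
            BCond (obs B I w.1) Sum.inl s I ∧ CodeOK (obs B I w.1) T k Sum.inl s I (mkC s w.2 r)} * k ^ s.size :=
            Finset.sum_mul _ _ _
        _ ≤ ∑ _w : Fin N × IV T s, Nat.card (Var d k n → Fin k) :=
            Finset.sum_le_sum fun w _ => B_bound B w.1 s hs hw (mkC s w.2 r)
        _ = N * T ^ s.groups * Nat.card (Var d k n → Fin k) := by
            rw [Finset.sum_const, Finset.card_univ, smul_eq_mul, Fintype.card_prod, Fintype.card_fin,
              ← Nat.card_eq_fintype_card (α := IV T s), card_IV]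
    rw [div_mul_eq_mul_div, le_div_iff₀ (by positivity), hX]
    exact_mod_cast h2
  have hB : ∀ r, (Nat.card {P // E r P} : ℝ) ≤ σ / (tf s r : ℝ) * X := by
    intro r
    have h1 := rank_prob hk s hw r
    rw [← htf r] at h1
    have h2 : Nat.card {P // E r P} ≤ σ * Nat.card {I : Var d k n → Fin k // RankEv s r I} := by
      calc Nat.card {P // E r P} ≤ Nat.card (Fin σ × {I : Var d k n → Fin k // RankEv s r I}) := by
            refine Nat.card_le_card_of_injective (fun P => (P.1.1, ⟨P.1.2, P.2.1⟩)) fun P P' h => ?_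
            have h3 : P.1.1 = P'.1.1 := congrArg (fun z => z.1) h
            have h4 : P.1.2 = P'.1.2 := congrArg (fun z => z.2.1) h
            exact Subtype.ext (Prod.ext h3 h4)
        _ = σ * Nat.card {I : Var d k n → Fin k // RankEv s r I} := by rw [Nat.card_prod, Nat.card_fin]
    have h3 : Nat.card {P // E r P} * tf s r ≤ σ * Nat.card (Var d k n → Fin k) := by
      calc Nat.card {P // E r P} * tf s r ≤ σ * Nat.card {I : Var d k n → Fin k // RankEv s r I} * tf s r :=
            Nat.mul_le_mul_right _ h2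
        _ = σ * (Nat.card {I : Var d k n → Fin k // RankEv s r I} * tf s r) := Nat.mul_assoc _ _ _
        _ ≤ σ * Nat.card (Var d k n → Fin k) := Nat.mul_le_mul_left _ h1
    have h4 : (0 : ℝ) < (tf s r : ℝ) := by exact_mod_cast tf_pos s r
    rw [div_mul_eq_mul_div, le_div_iff₀ h4, hX]
    exact_mod_cast h3
  set D : ℝ := N * (T : ℝ) ^ s.groups / (k : ℝ) ^ s.size with hD
  have hD0 : 0 ≤ D := by positivity
  have hσ0 : (0 : ℝ) ≤ σ := Nat.cast_nonneg _
  have hE : ∀ r, (Nat.card {P // E r P} : ℝ) ≤ Real.sqrt (D * σ) * Real.sqrt (1 / (tf s r : ℝ)) * X := by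
    intro r
    have h1 := hA r
    have h2 := hB r
    have h3 : (0 : ℝ) ≤ (Nat.card {P // E r P} : ℝ) := Nat.cast_nonneg _
    have h4 : (0 : ℝ) ≤ 1 / (tf s r : ℝ) := by positivity
    have h5 : (Nat.card {P // E r P} : ℝ) ≤ Real.sqrt ((D * X) * (σ / (tf s r : ℝ) * X)) := by
      apply Real.le_sqrt_of_sq_le
      rw [pow_two]
      exact mul_le_mul h1 h2 h3 (by positivity)
    refine h5.trans (le_of_eq ?_)
    rw [show (D * X) * (σ / (tf s r : ℝ) * X) = ((D * σ) * (1 / (tf s r : ℝ))) * (X * X) by ring,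
      Real.sqrt_mul (by positivity), Real.sqrt_mul_self hX0, Real.sqrt_mul (by positivity)]
  have hsum : (∑ r : RV k s, (Nat.card {P // E r P} : ℝ)) ≤ Real.sqrt (D * σ) * 4 ^ s.size * X := by
    calc ∑ r : RV k s, (Nat.card {P // E r P} : ℝ)
        ≤ ∑ r : RV k s, Real.sqrt (D * σ) * Real.sqrt (1 / (tf s r : ℝ)) * X := Finset.sum_le_sum fun r _ => hE r
      _ = Real.sqrt (D * σ) * (∑ r : RV k s, Real.sqrt (1 / (tf s r : ℝ))) * X := by
          rw [← Finset.sum_mul, ← Finset.mul_sum]
      _ ≤ Real.sqrt (D * σ) * 4 ^ s.size * X := by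
          refine mul_le_mul_of_nonneg_right (mul_le_mul_of_nonneg_left (sum_tf s) (Real.sqrt_nonneg _)) hX0
  refine le_trans (by exact_mod_cast hcov) (hsum.trans (le_of_eq ?_))
  have h6 : Real.sqrt (D * σ) = Real.sqrt (N * σ) * Real.sqrt (T / (k : ℝ) ^ d) ^ s.groups := by
    have h7 : D * σ = (N * σ) * (T / (k : ℝ) ^ d) ^ s.groups := by
      rw [hD, hsz, pow_mul, div_pow]
      ring
    rw [h7, Real.sqrt_mul (by positivity)]
    congr 1
    rw [Real.sqrt_eq_iff_mul_self_eq (by positivity) (by positivity), ← mul_pow, Real.mul_self_sqrt (by positivity)]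
  rw [h6, hsz, pow_mul, mul_pow]
  ring

end Pool.Agent.Helper18.IT
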